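import Pool.Agent.Run7.h415.Torus

set_option autoImplicit false

namespace Run7.h415

/-- `x` is between `p` and `q`. -/
def Btw (p q x : ℤ) : Prop := (p ≤ x ∧ x ≤ q) ∨ (q ≤ x ∧ x ≤ p)

theorem OnSeg.symm {p q x : Fin 3 → ℤ} (h : OnSeg p q x) : OnSeg q p x := by
  obtain ⟨i, h1, h2⟩ := h
  refine ⟨i, fun j hj => ⟨(h1 j hj).1.trans (h1 j hj).2.symm, (h1 j hj).2.symm⟩, ?_⟩
  rcases h2 with h2 | h2
  · exact Or.inr h2
  · exact Or.inl h2

theorem OnSeg.out {p q x : Fin 3 → ℤ} {i : Fin 3} (h : OnSeg p q x) (hi : p i ≠ q i) :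
    (∀ j, j ≠ i → x j = p j) ∧ Btw (p i) (q i) (x i) := by
  obtain ⟨k, h1, h2⟩ := h
  have hk : k = i := by
    by_contra hne
    exact hi (h1 i (Ne.symm hne)).2.symm
  subst hk
  exact ⟨fun j hj => (h1 j hj).1, h2⟩

theorem OnPath.symm {p b c q x : Fin 3 → ℤ} (h : OnPath p b c q x) : OnPath q c b p x := by
  rcases h with h | h | h
  · exact Or.inr (Or.inr h.symm)
  · exact Or.inr (Or.inl h.symm)
  · exact Or.inl h.symm

theorem IsPath.symm {p b c q : Fin 3 → ℤ} (h : IsPath p b c q) : IsPath q c b p := by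
  obtain ⟨⟨i, hi⟩, ⟨j, hj⟩, ⟨k, hk⟩, h1, h2, h3⟩ := h
  refine ⟨⟨k, fun l hl => (hk l hl).symm⟩, ⟨j, fun l hl => (hj l hl).symm⟩,
    ⟨i, fun l hl => (hi l hl).symm⟩, ?_, ?_, ?_⟩
  · intro x hx hy
    exact h2 x hy.symm hx.symm
  · intro x hx hy
    exact h1 x hy.symm hx.symm
  · intro x hx hy
    exact (h3 x hy.symm hx.symm).symm

namespace Data

variable {V : Type} (D : Data V)

/-- The points of the route of the edge from `v` to its `a`-successor. -/
def P (a : Fin 3) (v : V) (x : Fin 3 → ℤ) : Prop :=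
  x (a + 2) = D.pos v (a + 2) ∧
  ((x (a + 1) = D.pos v (a + 1) ∧ Btw (D.pos v a) (D.bend a v) (x a)) ∨
   (x a = D.bend a v ∧ Btw (D.pos v (a + 1)) (D.pos (D.s a v) (a + 1)) (x (a + 1))) ∨
   (x (a + 1) = D.pos (D.s a v) (a + 1) ∧ Btw (D.pos (D.s a v) a) (D.bend a v) (x a)))

/-- first bend -/
def b1 (a : Fin 3) (v : V) : Fin 3 → ℤ := Function.update (D.pos v) a (D.bend a v)
/-- second bend -/
def b2 (a : Fin 3) (v : V) : Fin 3 → ℤ := Function.update (D.pos (D.s a v)) a (D.bend a v)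

theorem idx_s_ne (a : Fin 3) (v : V) : D.idx (D.s a v) a ≠ D.idx v a := by
  have h := D.hself a v
  have hN := D.hN a
  split_ifs at h <;> omega

theorem pos_ne_bend (a : Fin 3) (u v : V) : D.pos u a ≠ D.bend a v := by
  intro h
  have h1 := D.pos_even a u
  have h2 := D.bend_odd a v
  rw [h] at h1
  omega

theorem row_ne (a : Fin 3) (v : V) : D.pos v (a + 1) ≠ D.pos (D.s a v) (a + 1) := by
  intro h
  have h1 := (D.decode h).1
  rw [e12] at h1
  exact D.idx_s_ne a v h1.symm

theorem onPath_P {a : Fin 3} {v : V} {x : Fin 3 → ℤ}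
    (h : OnPath (D.pos v) (D.b1 a v) (D.b2 a v) (D.pos (D.s a v)) x) : D.P a v x := by
  rcases h with h | h | h
  · have h1 := h.out (i := a) (by
      rw [b1, Function.update_self]; exact D.pos_ne_bend a v v)
    rw [b1, Function.update_self] at h1
    exact ⟨h1.1 _ (n2 a), Or.inl ⟨h1.1 _ (n1 a), h1.2⟩⟩
  · have h1 := h.out (i := a + 1) (by
      rw [b1, b2, Function.update_of_ne (n1 a), Function.update_of_ne (n1 a)]
      exact D.row_ne a v)
    rw [b1, b2, Function.update_of_ne (n1 a), Function.update_of_ne (n1 a)] at h1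
    refine ⟨?_, Or.inr (Or.inl ⟨?_, h1.2⟩)⟩
    · rw [h1.1 _ (n12 a).symm, Function.update_of_ne (n2 a)]
    · rw [h1.1 _ (n1 a).symm, Function.update_self]
  · have h1 := h.symm.out (i := a) (by
      rw [b2, Function.update_self]; exact D.pos_ne_bend a _ v)
    rw [b2, Function.update_self] at h1
    refine ⟨?_, Or.inr (Or.inr ⟨h1.1 _ (n1 a), h1.2⟩)⟩
    rw [h1.1 _ (n2 a), D.pos_s]

theorem isPath (a : Fin 3) (v : V) :
    IsPath (D.pos v) (D.b1 a v) (D.b2 a v) (D.pos (D.s a v)) := by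
  have hb : ∀ j, j ≠ a + 1 → D.b1 a v j = D.b2 a v j := by
    intro j hj
    rcases tri a j with rfl | rfl | rfl
    · rw [b1, b2, Function.update_self, Function.update_self]
    · exact absurd rfl hj
    · rw [b1, b2, Function.update_of_ne (n2 a), Function.update_of_ne (n2 a), D.pos_s]
  have g1 : D.pos v a ≠ D.b1 a v a := by
    rw [b1, Function.update_self]; exact D.pos_ne_bend a v v
  have g2 : D.b1 a v (a + 1) ≠ D.b2 a v (a + 1) := by
    rw [b1, b2, Function.update_of_ne (n1 a), Function.update_of_ne (n1 a)]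
    exact D.row_ne a v
  have g3 : D.b2 a v a ≠ D.pos (D.s a v) a := by
    rw [b2, Function.update_self]; exact (D.pos_ne_bend a _ v).symm
  refine ⟨⟨a, fun j hj => ?_⟩, ⟨a + 1, hb⟩, ⟨a, fun j hj => ?_⟩, ?_, ?_, ?_⟩
  · rw [b1, Function.update_of_ne hj]
  · rw [b2, Function.update_of_ne hj]
  · intro x hx hy
    have h1 := hx.out g1
    have h2 := hy.out g2
    funext j
    rcases tri a j with rfl | rfl | rfl
    · exact h2.1 _ (n1 _).symm
    · rw [h1.1 _ (n1 a), b1, Function.update_of_ne (n1 a)]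
    · exact h2.1 _ (n12 a).symm
  · intro x hx hy
    have h2 := hx.out g2
    have h3 := hy.out g3
    funext j
    rcases tri a j with rfl | rfl | rfl
    · rw [h2.1 _ (n1 _).symm]
      exact hb _ (n1 _).symm
    · exact h3.1 _ (n1 a)
    · exact h3.1 _ (n2 a)
  · intro x hx hy
    exfalso
    have h1 := (hx.out g1).1 _ (n1 a)
    have h3 := (hy.out g3).1 _ (n1 a)
    rw [b2, Function.update_of_ne (n1 a)] at h3
    exact D.row_ne a v (h1.symm.trans h3)

theorem idx_s_inj (a : Fin 3) {v w : V} (h : D.idx (D.s a v) a = D.idx (D.s a w) a) :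
    D.idx v a = D.idx w a := by
  have h1 := D.hself a v
  have h2 := D.hself a w
  have h3 := D.hlt v a
  have h4 := D.hlt w a
  rw [h1, h2] at h
  split_ifs at h <;> omega

/-- rows are ordered as the indices -/
theorem row_lt {a : Fin 3} {u v : V} (h : D.idx u a < D.idx v a) :
    D.pos u (a + 1) < D.pos v (a + 1) := by
  have hA := D.A_pos
  have h' : (D.idx u a : ℤ) < D.idx v a := by exact_mod_cast h
  have h1 := blk hA h'
  have h2 := D.low_lt u (a + 1) (a + 1 + 1)
  have h3 := D.low_nonneg v (a + 1) (a + 1 + 1)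
  have h4 := D.NA (a + 1)
  have h5 := D.B_pos
  unfold pos
  rw [e12]
  have h6 : D.B * ((D.N (a + 1) : ℤ) + 2) = D.B * D.N (a + 1) + 2 * D.B := by ring
  linarith

theorem bend_ge (a : Fin 3) (v : V) : D.A * D.idx v (a + 2) - 1 ≤ D.bend a v := by
  have := D.off_ge v a (D.idx v a)
  unfold bend; linarith

theorem bend_lt (a : Fin 3) (v : V) :
    D.bend a v < D.A * D.idx v (a + 2) + D.A - D.B := by
  have := D.off_le v a (D.idx v a) (D.hlt v a)
  have h4 := D.NA a
  have h6 : D.B * ((D.N a : ℤ) + 2) = D.B * ((D.N a : ℤ) + 1) + D.B := by ring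
  unfold bend; linarith

/-- an outer link stays in its block -/
theorem block {a : Fin 3} {r u w : V} (hw : D.idx w (a + 2) = D.idx r (a + 2))
    (h : Btw (D.pos r a) (D.bend a w) (D.pos u a)) : D.idx u (a + 2) = D.idx r (a + 2) := by
  have hA := D.A_pos
  have hB := D.B_pos
  have hNA := D.NA a
  have u1 := D.low_nonneg u a (a + 1)
  have u2 := D.low_lt u a (a + 1)
  have r1 := D.low_nonneg r a (a + 1)
  have r2 := D.low_lt r a (a + 1)
  have w1 := D.bend_ge a w
  have w2 := D.bend_lt a w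
  have hB2 : 2 ≤ D.B := by unfold B; omega
  have h6 : D.B * ((D.N a : ℤ) + 2) = D.B * D.N a + 2 * D.B := by ring
  rw [hw] at w1 w2
  have hp : D.pos u a = D.A * D.idx u (a + 2) + (D.B * D.idx u a + 2 * D.comp (a + 1) u) := by
    unfold pos; ring
  have hr : D.pos r a = D.A * D.idx r (a + 2) + (D.B * D.idx r a + 2 * D.comp (a + 1) r) := by
    unfold pos; ring
  rcases lt_trichotomy (D.idx u (a + 2)) (D.idx r (a + 2)) with hl | hl | hl
  · exfalso
    have hl' : (D.idx u (a + 2) : ℤ) < D.idx r (a + 2) := by exact_mod_cast hl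
    have h1 := blk hA hl'
    rcases h with ⟨h2, h3⟩ | ⟨h2, h3⟩ <;> linarith
  · exact hl
  · exfalso
    have hl' : (D.idx r (a + 2) : ℤ) < D.idx u (a + 2) := by exact_mod_cast hl
    have h1 := blk hA hl'
    rcases h with ⟨h2, h3⟩ | ⟨h2, h3⟩ <;> linarith

theorem ext3 {a : Fin 3} {x y : Fin 3 → ℤ} (h0 : x a = y a) (h1 : x (a + 1) = y (a + 1))
    (h2 : x (a + 2) = y (a + 2)) : x = y := by
  funext j
  rcases tri a j with rfl | rfl | rfl
  · exact h0
  · exact h1
  · exact h2

/-- Two edges of consecutive types. -/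
theorem cross_next {a : Fin 3} {v w : V} {x : Fin 3 → ℤ} (h1 : D.P a v x)
    (h2 : D.P (a + 1) w x) :
    ∃ r, x = D.pos r ∧ (r = v ∨ r = D.s a v) ∧ (r = w ∨ r = D.s (a + 1) w) := by
  obtain ⟨hc1, ho1⟩ := h1
  obtain ⟨hc2, ho2⟩ := h2
  rw [e12] at hc2
  rw [e11] at ho2
  -- the point is on an outer link of the first route
  have key : ∀ r, (r = v ∨ r = D.s a v) → x (a + 1) = D.pos r (a + 1) →
      ∃ r, x = D.pos r ∧ (r = v ∨ r = D.s a v) ∧ (r = w ∨ r = D.s (a + 1) w) := by
    intro r hr hx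
    have hr2 : x (a + 2) = D.pos r (a + 2) := by
      rcases hr with rfl | rfl
      · exact hc1
      · rw [hc1, D.pos_s]
    have key2 : ∀ r', (r' = w ∨ r' = D.s (a + 1) w) → x (a + 2) = D.pos r' (a + 2) →
        Btw (D.pos r' (a + 1)) (D.bend (a + 1) w) (x (a + 1)) →
        ∃ r, x = D.pos r ∧ (r = v ∨ r = D.s a v) ∧ (r = w ∨ r = D.s (a + 1) w) := by
      intro r' hr' hx' hb
      have hw : D.idx w (a + 1 + 2) = D.idx r' (a + 1 + 2) := by
        rcases hr' with rfl | rfl
        · rfl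
        · exact (D.hother _ _ _ (n2 (a + 1))).symm
      rw [hx] at hb
      have hi := D.block hw hb
      rw [e12] at hi
      have hrr : r = r' := D.ext' (hr2.symm.trans hx') hi
      subst hrr
      refine ⟨r, ext3 (a := a) ?_ hx hr2, hr, hr'⟩
      rw [hc2]
      rcases hr' with rfl | rfl
      · rfl
      · have := D.pos_s (a + 1) w
        rw [e12] at this
        exact this.symm
    rcases ho2 with ⟨h3, h4⟩ | ⟨h3, _⟩ | ⟨h3, h4⟩
    · exact key2 w (Or.inl rfl) h3 h4
    · exact absurd (hx.symm.trans h3) (D.pos_ne_bend _ _ _)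
    · exact key2 _ (Or.inr rfl) h3 h4
  rcases ho1 with ⟨h3, _⟩ | ⟨h3, _⟩ | ⟨h3, _⟩
  · exact key v (Or.inl rfl) h3
  · exact absurd (hc2.symm.trans h3) (D.pos_ne_bend _ _ _)
  · exact key _ (Or.inr rfl) h3

/-- An outer link of one edge does not meet the middle link of another edge of the same
component. -/
theorem outer_middle {a : Fin 3} {v w r : V} {x : Fin 3 → ℤ} (hne : v ≠ w)
    (hc : D.pos v (a + 2) = D.pos w (a + 2)) (hr : r = v ∨ r = D.s a v)
    (hrow : x (a + 1) = D.pos r (a + 1)) (hb : Btw (D.pos r a) (D.bend a v) (x a))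
    (hx : x a = D.bend a w)
    (hm : Btw (D.pos w (a + 1)) (D.pos (D.s a w) (a + 1)) (x (a + 1))) : False := by
  have hrc : D.pos r (a + 2) = D.pos w (a + 2) := by
    rcases hr with rfl | rfl
    · exact hc
    · rw [D.pos_s, hc]
  have hi2 : D.idx v (a + 2) = D.idx w (a + 2) := (D.decode hc).2.1
  have hri2 : D.idx r (a + 2) = D.idx w (a + 2) := (D.decode hrc).2.1
  rw [hrow] at hm
  rw [hx] at hb
  have hs := D.hself a w
  by_cases hcl : D.idx w a + 1 = D.N a
  · -- closing edge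
    have hvw : D.idx v a ≠ D.idx w a := fun h => hne (D.ext' hc h)
    have hlt := D.hlt v a
    have hoff : D.off a (D.idx w a) = -1 := by
      unfold off
      rw [if_neg (by omega), if_pos hcl]
    have hoffv : 0 < D.off a (D.idx v a) := by
      have hB := D.B_ge v
      unfold off
      have h0 : (0:ℤ) ≤ D.B * (D.idx v a : ℤ) := by positivity
      split_ifs with h1 h2 h3
      · have : D.B * ((D.idx v a : ℤ) + 2) = D.B * D.idx v a + 2 * D.B := by ring
        linarith
      · omega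
      · linarith
      · have h4 : (1:ℤ) ≤ D.idx v a := by omega
        have h5 := mul_le_mul_of_nonneg_left h4 D.B_pos.le
        linarith
    have e1 : D.bend a w = D.A * D.idx w (a + 2) - 1 := by
      unfold bend; rw [hoff]; ring
    have e2 : D.A * D.idx w (a + 2) < D.bend a v := by
      unfold bend; rw [hi2]; linarith
    have e3 : D.A * D.idx w (a + 2) ≤ D.pos r a := by
      have := D.low_nonneg r a (a + 1)
      unfold pos; rw [hri2]; linarith
    rcases hb with ⟨h2, h3⟩ | ⟨h2, h3⟩ <;> linarith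
  · rw [if_neg hcl] at hs
    -- `r` is an end of the edge of `w`
    have hrw : r = w ∨ r = D.s a w := by
      by_cases h1 : D.idx r a = D.idx w a
      · exact Or.inl (D.ext' hrc h1)
      by_cases h2 : D.idx r a = D.idx w a + 1
      · right
        refine D.ext' (a := a) ?_ (by rw [h2, hs])
        rw [D.pos_s, hrc]
      exfalso
      have hws : D.pos w (a + 1) < D.pos (D.s a w) (a + 1) := D.row_lt (by omega)
      rcases Nat.lt_or_ge (D.idx r a) (D.idx w a) with h3 | h3
      · have := D.row_lt h3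
        rcases hm with ⟨h4, h5⟩ | ⟨h4, h5⟩ <;> linarith
      · have : D.pos (D.s a w) (a + 1) < D.pos r (a + 1) := D.row_lt (by omega)
        rcases hm with ⟨h4, h5⟩ | ⟨h4, h5⟩ <;> linarith
    rcases hr with rfl | rfl
    · rcases hrw with h | h
      · exact hne h
      · -- r = v = s w
        subst h
        have hsd := D.sides a w
        rcases hsd with ⟨h1, h2⟩ | ⟨h1, h2⟩ <;> rcases hb with ⟨h3, h4⟩ | ⟨h3, h4⟩ <;> linarith
    · rcases hrw with h | h
      · subst h
        have hsd := D.sides a v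
        rcases hsd with ⟨h1, h2⟩ | ⟨h1, h2⟩ <;> rcases hb with ⟨h3, h4⟩ | ⟨h3, h4⟩ <;> linarith
      · have := D.idx_s_inj a (congrFun (congrArg D.idx h) a)
        exact hne (D.ext' hc this)

/-- Two edges of the same type. -/
theorem cross_same {a : Fin 3} {v w : V} {x : Fin 3 → ℤ} (hne : v ≠ w) (h1 : D.P a v x)
    (h2 : D.P a w x) :
    ∃ r, x = D.pos r ∧ (r = v ∨ r = D.s a v) ∧ (r = w ∨ r = D.s a w) := by
  obtain ⟨hc1, ho1⟩ := h1
  obtain ⟨hc2, ho2⟩ := h2
  have hc : D.pos v (a + 2) = D.pos w (a + 2) := hc1.symm.trans hc2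
  have hi2 : D.idx v (a + 2) = D.idx w (a + 2) := (D.decode hc).2.1
  -- two outer links
  have oo : ∀ r r', (r = v ∨ r = D.s a v) → (r' = w ∨ r' = D.s a w) →
      x (a + 1) = D.pos r (a + 1) → x (a + 1) = D.pos r' (a + 1) →
      Btw (D.pos r a) (D.bend a v) (x a) → Btw (D.pos r' a) (D.bend a w) (x a) →
      ∃ r, x = D.pos r ∧ (r = v ∨ r = D.s a v) ∧ (r = w ∨ r = D.s a w) := by
    intro r r' hr hr' e e' hb hb'
    have hrc : x (a + 2) = D.pos r (a + 2) := by
      rcases hr with rfl | rfl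
      · exact hc1
      · rw [hc1, D.pos_s]
    have hrc' : x (a + 2) = D.pos r' (a + 2) := by
      rcases hr' with rfl | rfl
      · exact hc2
      · rw [hc2, D.pos_s]
    have hrow := (D.decode (e.symm.trans e')).1
    rw [e12] at hrow
    have hrr : r = r' := D.ext' (hrc.symm.trans hrc') hrow
    subst hrr
    refine ⟨r, ext3 (a := a) ?_ e hrc, hr, hr'⟩
    rcases hr with rfl | rfl
    · rcases hr' with h | h
      · exact absurd h hne
      · subst h
        have hsd := D.sides a w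
        rcases hsd with ⟨g1, g2⟩ | ⟨g1, g2⟩ <;> rcases hb with ⟨g3, g4⟩ | ⟨g3, g4⟩ <;>
          rcases hb' with ⟨g5, g6⟩ | ⟨g5, g6⟩ <;> linarith
    · rcases hr' with h | h
      · subst h
        have hsd := D.sides a v
        rcases hsd with ⟨g1, g2⟩ | ⟨g1, g2⟩ <;> rcases hb with ⟨g3, g4⟩ | ⟨g3, g4⟩ <;>
          rcases hb' with ⟨g5, g6⟩ | ⟨g5, g6⟩ <;> linarith
      · have := D.idx_s_inj a (congrFun (congrArg D.idx h) a)
        exact absurd (D.ext' hc this) hne
  rcases ho1 with ⟨a1, a2⟩ | ⟨a1, a2⟩ | ⟨a1, a2⟩ <;>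
    rcases ho2 with ⟨b1, b2⟩ | ⟨b1, b2⟩ | ⟨b1, b2⟩
  · exact oo v w (Or.inl rfl) (Or.inl rfl) a1 b1 a2 b2
  · exact (D.outer_middle hne hc (Or.inl rfl) a1 a2 b1 b2).elim
  · exact oo v _ (Or.inl rfl) (Or.inr rfl) a1 b1 a2 b2
  · exact (D.outer_middle hne.symm hc.symm (Or.inl rfl) b1 b2 a1 a2).elim
  · exfalso
    have h := a1.symm.trans b1
    unfold bend at h
    rw [hi2] at h
    have := D.off_inj v a (add_left_cancel h)
    exact hne (D.ext' hc this)
  · exact (D.outer_middle hne.symm hc.symm (Or.inr rfl) b1 b2 a1 a2).elim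
  · exact oo _ w (Or.inr rfl) (Or.inl rfl) a1 b1 a2 b2
  · exact (D.outer_middle hne hc (Or.inr rfl) a1 a2 b1 b2).elim
  · exact oo _ _ (Or.inr rfl) (Or.inr rfl) a1 b1 a2 b2

theorem cross {a b : Fin 3} {v w : V} {x : Fin 3 → ℤ} (hne : ¬ (a = b ∧ v = w))
    (h1 : D.P a v x) (h2 : D.P b w x) :
    ∃ r, x = D.pos r ∧ (r = v ∨ r = D.s a v) ∧ (r = w ∨ r = D.s b w) := by
  rcases tri a b with rfl | rfl | rfl
  · exact D.cross_same (fun h => hne ⟨rfl, h⟩) h1 h2
  · exact D.cross_next h1 h2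
  · have e : a = a + 2 + 1 := (e21 a).symm
    have h1' : D.P (a + 2 + 1) v x := e ▸ h1
    obtain ⟨r, h3, h4, h5⟩ := D.cross_next h2 h1'
    rw [← e] at h5
    exact ⟨r, h3, h5, h4⟩

theorem avoid {a : Fin 3} {u v : V} (h : D.P a v (D.pos u)) : u = v ∨ u = D.s a v := by
  obtain ⟨hc, ho⟩ := h
  rcases ho with ⟨h1, _⟩ | ⟨h1, _⟩ | ⟨h1, _⟩
  · left
    have := (D.decode h1).1
    rw [e12] at this
    exact D.ext' hc this
  · exact absurd h1 (D.pos_ne_bend _ _ _)
  · right
    have := (D.decode h1).1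
    rw [e12] at this
    refine D.ext' (a := a) ?_ this
    rw [D.pos_s, hc]

theorem excl {u v : V} (h1 : ∃ a, D.s a u = v) (h2 : ∃ a, D.s a v = u) : False := by
  obtain ⟨a, rfl⟩ := h1
  obtain ⟨b, h2⟩ := h2
  by_cases hab : b = a
  · subst hab
    have e1 := D.hself b u
    have e2 := D.hself b (D.s b u)
    rw [h2] at e2
    have hN := D.hN b
    have hl := D.hlt u b
    split_ifs at e1 e2 <;> omega
  · have e1 := D.hother b a (D.s a u) (Ne.symm hab)
    rw [h2] at e1
    exact D.idx_s_ne a u e1.symm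

/-- The drawing. -/
theorem drawing (G : SimpleGraph V) (hG : ∀ u v, G.Adj u v → ∃ a, D.s a u = v ∨ D.s a v = u) :
    HasTwoBendDrawing G := by
  classical
  let b : V → V → Fin 3 → ℤ := fun u v =>
    if h : ∃ a, D.s a u = v then D.b1 h.choose u
    else if h' : ∃ a, D.s a v = u then D.b2 h'.choose v else 0
  let c : V → V → Fin 3 → ℤ := fun u v =>
    if h : ∃ a, D.s a u = v then D.b2 h.choose u
    else if h' : ∃ a, D.s a v = u then D.b1 h'.choose v else 0
  have hbc : ∀ u v, G.Adj u v → ∃ a r, ((u = r ∧ v = D.s a r) ∨ (v = r ∧ u = D.s a r)) ∧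
      (∀ x, OnPath (D.pos u) (b u v) (c u v) (D.pos v) x → D.P a r x) ∧
      IsPath (D.pos u) (b u v) (c u v) (D.pos v) ∧ b v u = c u v := by
    intro u v huv
    by_cases h : ∃ a, D.s a u = v
    · have hb : b u v = D.b1 h.choose u := dif_pos h
      have hc : c u v = D.b2 h.choose u := dif_pos h
      have hn : ¬ ∃ a, D.s a v = u := fun h' => D.excl h h'
      have hb' : b v u = D.b2 h.choose u := by
        show (if h : ∃ a, D.s a v = u then D.b1 h.choose v
          else if h' : ∃ a, D.s a u = v then D.b2 h'.choose u else 0) = _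
        rw [dif_neg hn, dif_pos h]
      have hs := h.choose_spec
      refine ⟨h.choose, u, Or.inl ⟨rfl, hs.symm⟩, ?_, ?_, ?_⟩
      · intro x hx
        rw [hb, hc] at hx
        apply D.onPath_P
        rw [hs]; exact hx
      · rw [hb, hc]
        have := D.isPath h.choose u
        rw [hs] at this
        exact this
      · rw [hb', hc]
    · have h' : ∃ a, D.s a v = u := by
        obtain ⟨a, ha | ha⟩ := hG u v huv
        · exact absurd ⟨a, ha⟩ h
        · exact ⟨a, ha⟩
      have hb : b u v = D.b2 h'.choose v := by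
        show (if h : ∃ a, D.s a u = v then D.b1 h.choose u
          else if h' : ∃ a, D.s a v = u then D.b2 h'.choose v else 0) = _
        rw [dif_neg h, dif_pos h']
      have hc : c u v = D.b1 h'.choose v := by
        show (if h : ∃ a, D.s a u = v then D.b2 h.choose u
          else if h' : ∃ a, D.s a v = u then D.b1 h'.choose v else 0) = _
        rw [dif_neg h, dif_pos h']
      have hb' : b v u = D.b1 h'.choose v := dif_pos h'
      have hs := h'.choose_spec
      refine ⟨h'.choose, v, Or.inr ⟨rfl, hs.symm⟩, ?_, ?_, ?_⟩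
      · intro x hx
        rw [hb, hc] at hx
        apply D.onPath_P
        rw [hs]; exact hx.symm
      · rw [hb, hc]
        have := D.isPath h'.choose v
        rw [hs] at this
        exact this.symm
      · rw [hb', hc]
  refine ⟨D.pos, b, c, D.pos_inj, ?_, ?_, ?_⟩
  · intro u v huv
    obtain ⟨a, r, _, _, h3, h4⟩ := hbc u v huv
    exact ⟨h3, h4⟩
  · intro u v w huv hw
    obtain ⟨a, r, h1, h2, _, _⟩ := hbc u v huv
    have h3 := D.avoid (h2 _ hw)
    rcases h1 with ⟨rfl, rfl⟩ | ⟨rfl, rfl⟩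
    · exact h3
    · exact h3.symm
  · intro u v u' v' x huv huv' hne hx hx'
    obtain ⟨a, r, h1, h2, _, _⟩ := hbc u v huv
    obtain ⟨a', r', h1', h2', _, _⟩ := hbc u' v' huv'
    have hd : ¬ (a = a' ∧ r = r') := by
      rintro ⟨rfl, rfl⟩
      apply hne
      rcases h1 with ⟨rfl, rfl⟩ | ⟨rfl, rfl⟩ <;> rcases h1' with ⟨rfl, rfl⟩ | ⟨rfl, rfl⟩
      · rfl
      · exact Sym2.eq_swap
      · exact Sym2.eq_swap
      · rfl
    obtain ⟨w, h3, h4, h5⟩ := D.cross hd (h2 _ hx) (h2' _ hx')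
    refine ⟨w, h3, ?_, ?_⟩
    · rcases h1 with ⟨rfl, rfl⟩ | ⟨rfl, rfl⟩
      · exact h4
      · exact h4.symm
    · rcases h1' with ⟨rfl, rfl⟩ | ⟨rfl, rfl⟩
      · exact h5
      · exact h5.symm

end Data

end Run7.h415
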