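import Mathlib

set_option autoImplicit false

namespace Run7.h415

/-- The lattice point `x` lies on the axis-parallel segment with end points `p` and `q`. -/
def OnSeg (p q x : Fin 3 → ℤ) : Prop :=
  ∃ i : Fin 3, (∀ j : Fin 3, j ≠ i → x j = p j ∧ q j = p j) ∧
    ((p i ≤ x i ∧ x i ≤ q i) ∨ (q i ≤ x i ∧ x i ≤ p i))

/-- The lattice point `x` lies on the polygonal path with corners `p`, `b`, `c`, `q`. -/
def OnPath (p b c q x : Fin 3 → ℤ) : Prop :=
  OnSeg p b x ∨ OnSeg b c x ∨ OnSeg c q x

/-- `p`, `b`, `c`, `q` are the corners of a lattice path with at most three axis-parallel links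
(hence at most two bends) which does not meet itself. -/
def IsPath (p b c q : Fin 3 → ℤ) : Prop :=
  (∃ i : Fin 3, ∀ j : Fin 3, j ≠ i → p j = b j) ∧
  (∃ i : Fin 3, ∀ j : Fin 3, j ≠ i → b j = c j) ∧
  (∃ i : Fin 3, ∀ j : Fin 3, j ≠ i → c j = q j) ∧
  (∀ x, OnSeg p b x → OnSeg b c x → x = b) ∧
  (∀ x, OnSeg b c x → OnSeg c q x → x = c) ∧
  (∀ x, OnSeg p b x → OnSeg c q x → x = b ∧ x = c)

/-- `G` has a 3D orthogonal point-drawing with at most two bends on every edge: vertices at
distinct lattice points, the edge `uv` is routed along the path `f u`, `b u v`, `c u v`, `f v`,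
routes avoid the other vertices, and the routes of two different edges meet only in the image of
a common end vertex. -/
def HasTwoBendDrawing {V : Type} (G : SimpleGraph V) : Prop :=
  ∃ (f : V → Fin 3 → ℤ) (b c : V → V → Fin 3 → ℤ), Function.Injective f ∧
    (∀ u v, G.Adj u v → IsPath (f u) (b u v) (c u v) (f v) ∧ b v u = c u v) ∧
    (∀ u v w, G.Adj u v → OnPath (f u) (b u v) (c u v) (f v) (f w) → w = u ∨ w = v) ∧
    (∀ u v u' v' x, G.Adj u v → G.Adj u' v' → s(u, v) ≠ s(u', v') →
      OnPath (f u) (b u v) (c u v) (f v) x → OnPath (f u') (b u' v') (c u' v') (f v') x →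
      ∃ w, x = f w ∧ (w = u ∨ w = v) ∧ (w = u' ∨ w = v'))

end Run7.h415
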