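import Pool.Agent.Run7.h415.Defs

set_option autoImplicit false

namespace Run7.h415

theorem blk {A i i' : ℤ} (hA : 0 < A) (h : i < i') : A * i + A ≤ A * i' := by nlinarith

/-- Index data for the construction. -/
structure Data (V : Type) where
  N : Fin 3 → ℕ
  s : Fin 3 → V → V
  idx : V → Fin 3 → ℕ
  comp : Fin 3 → V → ℕ
  K : ℕ
  hN : ∀ a, 3 ≤ N a
  hlt : ∀ v a, idx v a < N a
  hself : ∀ a v, idx (s a v) a = if idx v a + 1 = N a then 0 else idx v a + 1
  hother : ∀ a b v, b ≠ a → idx (s a v) b = idx v b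
  hcomp : ∀ a v, comp a (s a v) = comp a v
  hK : ∀ a v, comp a v < K
  hinj : ∀ a u v, idx u = idx v → comp a u = comp a v → u = v

namespace Data

variable {V : Type} (D : Data V)

/-- width of a small block -/
def B : ℤ := 2 * D.K + 2

/-- width of a large block -/
def A : ℤ := D.B * (D.N 0 + D.N 1 + D.N 2 + 2)

/-- position of a vertex -/
def pos (v : V) (a : Fin 3) : ℤ :=
  D.A * D.idx v (a + 2) + D.B * D.idx v a + 2 * D.comp (a + 1) v

/-- offset of the bend of the edge from index `t` -/
def off (a : Fin 3) (t : ℕ) : ℤ :=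
  if (t + D.N a) % 2 = 0 then D.B * (t + 2) - 3
  else if t + 1 = D.N a then -1
  else if t = 0 then D.B - 1
  else D.B * t - 1

/-- coordinate of the bend -/
def bend (a : Fin 3) (v : V) : ℤ := D.A * D.idx v (a + 2) + D.off a (D.idx v a)

theorem e21 (a : Fin 3) : a + 2 + 1 = a := by fin_cases a <;> rfl
theorem e22 (a : Fin 3) : a + 2 + 2 = a + 1 := by fin_cases a <;> rfl
theorem e11 (a : Fin 3) : a + 1 + 1 = a + 2 := by fin_cases a <;> rfl
theorem e12 (a : Fin 3) : a + 1 + 2 = a := by fin_cases a <;> rfl
theorem n1 (a : Fin 3) : a + 1 ≠ a := by fin_cases a <;> decide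
theorem n2 (a : Fin 3) : a + 2 ≠ a := by fin_cases a <;> decide
theorem n12 (a : Fin 3) : a + 1 ≠ a + 2 := by fin_cases a <;> decide
theorem tri (a j : Fin 3) : j = a ∨ j = a + 1 ∨ j = a + 2 := by
  fin_cases a <;> fin_cases j <;> decide

theorem B_pos : 0 < D.B := by unfold B; positivity

theorem B_ge (v : V) : 4 ≤ D.B := by
  have := D.hK 0 v
  unfold B; omega

theorem NA (a : Fin 3) : D.B * ((D.N a : ℤ) + 2) ≤ D.A := by
  have h : ((D.N a : ℤ) + 2) ≤ (D.N 0 + D.N 1 + D.N 2 + 2) := by
    fin_cases a <;> simp <;> omega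
  exact mul_le_mul_of_nonneg_left h D.B_pos.le

theorem A_pos : 0 < D.A := by
  have := D.B_pos
  unfold A; positivity

theorem low_nonneg (v : V) (a b : Fin 3) : 0 ≤ D.B * (D.idx v a : ℤ) + 2 * (D.comp b v : ℤ) := by
  have := D.B_pos
  positivity

theorem low_lt (v : V) (a b : Fin 3) :
    D.B * (D.idx v a : ℤ) + 2 * (D.comp b v : ℤ) < D.B * (D.N a : ℤ) := by
  have h1 := D.hlt v a
  have h2 := D.hK b v
  have h3 : (D.idx v a : ℤ) < D.N a := by exact_mod_cast h1
  have h4 := blk D.B_pos h3
  have h5 : 2 * (D.comp b v : ℤ) < D.B := by unfold B; omega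
  linarith

theorem off_ge (v : V) (a : Fin 3) (t : ℕ) : -1 ≤ D.off a t := by
  have hB := D.B_ge v
  unfold off
  split_ifs with h1 h2 h3
  · have : (0:ℤ) ≤ D.B * t := by positivity
    linarith
  · linarith
  · linarith
  · have : (0:ℤ) ≤ D.B * t := by positivity
    linarith

theorem off_le (v : V) (a : Fin 3) (t : ℕ) (ht : t < D.N a) :
    D.off a t ≤ D.B * ((D.N a : ℤ) + 1) - 3 := by
  have hB := D.B_ge v
  have h3 : (t : ℤ) < D.N a := by exact_mod_cast ht
  have h4 := blk D.B_pos h3
  have h5 : (0:ℤ) ≤ D.B * t := by positivity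
  unfold off
  split_ifs with h1 h2 h3
  · linarith
  · linarith
  · linarith
  · linarith

/-- decoding of a coordinate -/
theorem decode {u v : V} {a : Fin 3} (h : D.pos u a = D.pos v a) :
    D.idx u (a + 2) = D.idx v (a + 2) ∧ D.idx u a = D.idx v a ∧
      D.comp (a + 1) u = D.comp (a + 1) v := by
  unfold pos at h
  have hA := D.A_pos
  have hB := D.B_pos
  have hNA := D.NA a
  have u1 := D.low_nonneg u a (a + 1)
  have u2 := D.low_lt u a (a + 1)
  have v1 := D.low_nonneg v a (a + 1)
  have v2 := D.low_lt v a (a + 1)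
  have e1 : D.idx u (a + 2) = D.idx v (a + 2) := by
    rcases lt_trichotomy (D.idx u (a + 2)) (D.idx v (a + 2)) with hl | hl | hl
    · have hl' : (D.idx u (a + 2) : ℤ) < D.idx v (a + 2) := by exact_mod_cast hl
      have := blk hA hl'
      linarith
    · exact hl
    · have hl' : (D.idx v (a + 2) : ℤ) < D.idx u (a + 2) := by exact_mod_cast hl
      have := blk hA hl'
      linarith
  rw [e1] at h
  have hu := D.hK (a + 1) u
  have hv := D.hK (a + 1) v
  have hu' : 2 * (D.comp (a + 1) u : ℤ) < D.B := by unfold B; omega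
  have hv' : 2 * (D.comp (a + 1) v : ℤ) < D.B := by unfold B; omega
  have e2 : D.idx u a = D.idx v a := by
    rcases lt_trichotomy (D.idx u a) (D.idx v a) with hl | hl | hl
    · have hl' : (D.idx u a : ℤ) < D.idx v a := by exact_mod_cast hl
      have := blk hB hl'
      linarith [Int.natCast_nonneg (D.comp (a + 1) v)]
    · exact hl
    · have hl' : (D.idx v a : ℤ) < D.idx u a := by exact_mod_cast hl
      have := blk hB hl'
      linarith [Int.natCast_nonneg (D.comp (a + 1) u)]
  rw [e2] at h
  refine ⟨e1, e2, ?_⟩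
  have : (D.comp (a + 1) u : ℤ) = D.comp (a + 1) v := by linarith
  exact_mod_cast this

/-- same component and same index -/
theorem ext' {u v : V} {a : Fin 3} (h : D.pos u (a + 2) = D.pos v (a + 2))
    (hi : D.idx u a = D.idx v a) : u = v := by
  obtain ⟨h1, h2, h3⟩ := D.decode h
  rw [e22] at h1
  rw [e21] at h3
  refine D.hinj a u v ?_ h3
  funext j
  rcases tri a j with rfl | rfl | rfl
  · exact hi
  · exact h1
  · exact h2

theorem pos_inj : Function.Injective D.pos := by
  intro u v h
  have h0 : D.pos u (0 + 2) = D.pos v (0 + 2) := congrFun h _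
  refine D.ext' (a := 0) h0 ?_
  exact (D.decode (congrFun h 0)).2.1

theorem pos_s (a : Fin 3) (v : V) : D.pos (D.s a v) (a + 2) = D.pos v (a + 2) := by
  unfold pos
  rw [e22, e21, D.hother a (a + 1) v (n1 a), D.hother a (a + 2) v (n2 a), D.hcomp]

theorem pos_even (a : Fin 3) (v : V) : D.pos v a % 2 = 0 := by
  have h1 : D.pos v a = 2 * ((D.K + 1) * (D.N 0 + D.N 1 + D.N 2 + 2) * D.idx v (a + 2) +
      (D.K + 1) * D.idx v a + D.comp (a + 1) v) := by
    unfold pos A B; ring
  rw [h1]; omega

theorem bend_odd (a : Fin 3) (v : V) : D.bend a v % 2 = 1 := by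
  have h1 : D.A * (D.idx v (a + 2) : ℤ) = 2 * ((D.K + 1) * (D.N 0 + D.N 1 + D.N 2 + 2) *
      D.idx v (a + 2)) := by
    unfold A B; ring
  have h2 : D.off a (D.idx v a) % 2 = 1 := by
    unfold off
    split_ifs
    · have : D.B * ((D.idx v a : ℤ) + 2) = 2 * ((D.K + 1) * ((D.idx v a : ℤ) + 2)) := by
        unfold B; ring
      rw [this]; omega
    · rfl
    · unfold B; omega
    · have : D.B * (D.idx v a : ℤ) = 2 * ((D.K + 1) * (D.idx v a : ℤ)) := by
        unfold B; ring
      rw [this]; omega
  unfold bend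
  rw [h1]; omega

/-- The forward bend and the backward bend of a vertex are on different sides. -/
theorem sides (a : Fin 3) (v : V) :
    (D.bend a v < D.pos (D.s a v) a ∧ D.pos (D.s a v) a < D.bend a (D.s a v)) ∨
    (D.bend a (D.s a v) < D.pos (D.s a v) a ∧ D.pos (D.s a v) a < D.bend a v) := by
  have hB := D.B_ge v
  have hN := D.hN a
  have hs := D.hself a v
  have ho : D.idx (D.s a v) (a + 2) = D.idx v (a + 2) := D.hother a (a + 2) v (n2 a)
  have hlt := D.hlt v a
  have hc := D.hK (a + 1) (D.s a v)
  have hc' : 2 * (D.comp (a + 1) (D.s a v) : ℤ) + 4 ≤ D.B := by unfold B; omega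
  have hc0 : (0:ℤ) ≤ 2 * (D.comp (a + 1) (D.s a v) : ℤ) := by positivity
  unfold bend pos
  rw [ho]
  set t := D.idx v a with ht
  set M := D.N a with hM
  by_cases hcl : t + 1 = M
  · rw [if_pos hcl] at hs
    rw [hs]
    left
    have e1 : D.off a t = -1 := by
      unfold off
      rw [if_neg (by omega), if_pos hcl]
    have e2 : D.B - 1 ≤ D.off a 0 := by
      unfold off
      by_cases h : (0 + D.N a) % 2 = 0
      · rw [if_pos h]; push_cast; linarith
      · rw [if_neg h, if_neg (by omega), if_pos rfl]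
    rw [e1]
    push_cast
    constructor <;> linarith
  · rw [if_neg hcl] at hs
    rw [hs]
    have hB0 : (0:ℤ) ≤ D.B * t := by positivity
    by_cases h : (t + M) % 2 = 0
    · -- forward bend of `v` is to the right
      right
      have e1 : D.off a t = D.B * (t + 2) - 3 := by
        unfold off; rw [if_pos h]
      have e2 : D.off a (t + 1) ≤ D.B * (t + 1) - 1 := by
        unfold off
        rw [if_neg (by omega)]
        by_cases h2 : t + 1 + 1 = D.N a
        · rw [if_pos h2]; linarith
        · rw [if_neg h2, if_neg (by omega)]; push_cast; linarith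
      rw [e1]
      push_cast
      push_cast at e2
      constructor
      · linarith
      · have : D.B * ((t : ℤ) + 2) = D.B * (t + 1) + D.B := by ring
        linarith
    · left
      have e1 : D.off a t ≤ D.B * (t + 1) - 1 := by
        unfold off
        rw [if_neg h, if_neg hcl]
        split_ifs with h3
        · rw [h3]; push_cast; linarith
        · have : D.B * ((t : ℤ) + 1) = D.B * t + D.B := by ring
          linarith
      have e2 : D.off a (t + 1) = D.B * (t + 1 + 2) - 3 := by
        unfold off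
        rw [if_pos (by omega)]
        push_cast; ring
      rw [e2]
      push_cast
      constructor
      · linarith
      · have : D.B * ((t : ℤ) + 1 + 2) = D.B * (t + 1) + 2 * D.B := by ring
        linarith

theorem off_inj (v : V) (a : Fin 3) {t t' : ℕ}
    (h : D.off a t = D.off a t') : t = t' := by
  have hB := D.B_ge v
  have hBp := D.B_pos
  have hN := D.hN a
  have key : ∀ p q : ℤ, D.B * p - 3 = D.B * q - 1 → False := by
    intro p q hpq
    rcases lt_trichotomy p q with hl | hl | hl
    · have := blk hBp hl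
      linarith
    · subst hl; linarith
    · have := blk hBp hl
      linarith
  have key2 : ∀ p q : ℤ, D.B * p = D.B * q → p = q := by
    intro p q hpq
    exact mul_left_cancel₀ hBp.ne' hpq
  have k0 : ∀ p : ℤ, D.B * p - 3 = -1 → False := fun p hp => key p 0 (by linarith)
  have k1 : ∀ p : ℤ, D.B * p - 3 = D.B - 1 → False := fun p hp => key p 1 (by linarith)
  unfold off at h
  split_ifs at h with h1 h2 h3 h4 h5 h6 h7 h8 h9 h10 h11 h12 h13
  all_goals first
    | omega
    | exact absurd h (fun h => key _ _ h)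
    | exact absurd h.symm (fun h => key _ _ h)
    | exact absurd h (fun h => k0 _ h)
    | exact absurd h.symm (fun h => k0 _ h)
    | exact absurd h (fun h => k1 _ h)
    | exact absurd h.symm (fun h => k1 _ h)
    | (have := key2 _ _ (show D.B * ((t : ℤ) + 2) = D.B * ((t' : ℤ) + 2) by linarith); omega)
    | (have := key2 _ _ (show D.B * (t : ℤ) = D.B * 0 by linarith); omega)
    | (have := key2 _ _ (show D.B * (t' : ℤ) = D.B * 0 by linarith); omega)
    | (have := key2 _ _ (show D.B * (t : ℤ) = D.B * 1 by linarith); omega)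
    | (have := key2 _ _ (show D.B * (t' : ℤ) = D.B * 1 by linarith); omega)
    | (have := key2 _ _ (show D.B * (t : ℤ) = D.B * (t' : ℤ) by linarith); omega)

end Data

end Run7.h415
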